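import Pool.Agent.H3.McD

open Matrix
open scoped ComplexOrder

namespace Pool.Agent.Results.MP_7b724e_an.McCarthy

/-- `A ^ q` for real `q`: the function `x ↦ x ^ q` applied to the eigenvalues. -/
noncomputable def mpow {n : ℕ} (A : Matrix (Fin n) (Fin n) ℂ) (q : ℝ) : Matrix (Fin n) (Fin n) ℂ :=
  cfc (fun x : ℝ => x ^ q) A

/-- The (real) trace. -/
noncomputable def tr {n : ℕ} (X : Matrix (Fin n) (Fin n) ℂ) : ℝ := (Matrix.trace X).re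

/-- `R_q(A,B) = Tr A^q + Tr B^q + (2^q - 2) Tr (A^{1/2} B A^{1/2})^{q/2}`. -/
noncomputable def R {n : ℕ} (q : ℝ) (A B : Matrix (Fin n) (Fin n) ℂ) : ℝ :=
  tr (mpow A q) + tr (mpow B q) +
    (2 ^ q - 2) * tr (mpow (mpow A (1 / 2) * B * mpow A (1 / 2)) (q / 2))

theorem result :
    (∀ q : ℝ, -2 < q → q < 0 → ∀ (n : ℕ) (A B : Matrix (Fin n) (Fin n) ℂ), A.PosDef → B.PosDef →
      tr (mpow (A + B) q) ≤ R q A B) ∧
    (∀ q : ℝ, 3 < q → ∀ (n : ℕ) (A B : Matrix (Fin n) (Fin n) ℂ), A.PosDef → B.PosDef →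
      R q A B ≤ tr (mpow (A + B) q)) :=
  ⟨fun q h2 h0 _ _ _ hA hB => (H3Mc.main hA hB q).1 h2 h0,
    fun q h3 _ _ _ hA hB => (H3Mc.main hA hB q).2 h3⟩

end Pool.Agent.Results.MP_7b724e_an.McCarthy
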